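import Pool.Agent.H5.SubGame

namespace Pool.Agent.Results.MP_052694_co.HalfPeriod

open Pool.Agent.H5.SubGame

/-- The zero-indicator of the nim-sequence. -/
noncomputable def zeroInd (S : Finset ℕ) (n : ℕ) : ℕ := if nim S n = 0 then 0 else 1

def T (n : ℕ) : ℕ :=
  [0, 0, 1, 1, 2, 2, 3, 3, 4, 0, 5, 1, 4, 2, 5, 0, 4, 1, 3, 2, 4, 0, 3, 1, 4, 2, 3, 0, 4, 1, 3, 2,
    4, 0, 3, 1, 4, 2, 3, 0, 4, 1, 3, 2, 4].getD n 0

lemma tab : ∀ n < 45, nim {2, 3, 5, 7, 10, 13} n = T n :=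
  table _ T 45 (by decide +kernel)

lemma per : ∀ n, 15 ≤ n → nim {2, 3, 5, 7, 10, 13} (n + 12) = nim {2, 3, 5, 7, 10, 13} n := by
  apply periodic _ 13 12 15 (by decide)
  intro n h1 h2
  rw [tab _ (by omega), tab _ (by omega)]
  interval_cases n <;> rfl

lemma per6 : ∀ n, 15 ≤ n →
    zeroInd {2, 3, 5, 7, 10, 13} (n + 6) = zeroInd {2, 3, 5, 7, 10, 13} n := by
  intro n hn
  have e : n = (15 + (n - 15) % 12) + ((n - 15) / 12) * 12 := by omega
  have e2 : n + 6 = (15 + (n - 15) % 12 + 6) + ((n - 15) / 12) * 12 := by omega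
  have hr : (n - 15) % 12 < 12 := Nat.mod_lt _ (by norm_num)
  unfold zeroInd
  rw [e2, iter _ 12 15 per _ _ (by omega)]
  conv_rhs => rw [e, iter _ 12 15 per _ _ (by omega)]
  generalize (n - 15) % 12 = r at hr
  rw [tab _ (by omega), tab _ (by omega)]
  interval_cases r <;> rfl

theorem result : ∃ S : Finset ℕ, S.Nonempty ∧ (∀ s ∈ S, 0 < s) ∧
    period (nim S) = 12 ∧ period (zeroInd S) = 6 := by
  refine ⟨{2, 3, 5, 7, 10, 13}, by decide, by decide, ?_, ?_⟩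
  · apply period_eq _ 12 15 (by norm_num) per
    intro q h1 h2
    have : ∀ q < 12, 1 ≤ q → ∃ n < 27, 15 ≤ n ∧ T (n + q) ≠ T n := by decide +kernel
    obtain ⟨n, hn, h3, h4⟩ := this q h2 h1
    exact ⟨n, h3, by rwa [tab _ (by omega), tab _ (by omega)]⟩
  · apply period_eq _ 6 15 (by norm_num) per6
    intro q h1 h2
    refine ⟨15, le_rfl, ?_⟩
    unfold zeroInd
    rw [tab _ (by omega), tab _ (by omega)]
    interval_cases q <;> decide

end Pool.Agent.Results.MP_052694_co.HalfPeriod
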